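import Pool.Agent.V11112.NX1

set_option linter.all false

namespace Pool.Agent.K7.H38.FC

open Filter Topology Metric Pool.Agent.V11112.NX1

variable {X : Type*} [NormedAddCommGroup X] [NormedSpace ℝ X]

/-- nonexpansive self-maps of `C` -/
abbrev NC (C : Set X) : Type _ := {f : C → C // ∀ x y, ‖(f x : X) - f y‖ ≤ ‖(x : X) - y‖}

def FC (C : Set X) : Set (NC C) :=
  {f | ∃ K : Set X, K.Nonempty ∧ IsClosed K ∧ Convex ℝ K ∧ Bornology.IsBounded K ∧ K ⊆ C ∧
    ∀ x : C, (x : X) ∈ K → (f.1 x : X) ∈ K}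

theorem basicC {C : Set X} (U : Set (NC C)) (hU : IsOpen U) (f : NC C) (hf : f ∈ U) :
    ∃ I : Finset C, ∃ ε > 0, ∀ h : NC C, (∀ x ∈ I, ‖(h.1 x : X) - f.1 x‖ < ε) → h ∈ U := by
  obtain ⟨V, hV, rfl⟩ := isOpen_induced_iff.mp hU
  rw [isOpen_pi_iff] at hV
  obtain ⟨I, u, hu, hsub⟩ := hV f.1 hf
  have h1 : ∀ᶠ ε in 𝓝[>] (0:ℝ), ∀ a ∈ I, Metric.ball (f.1 a) ε ⊆ u a := by
    rw [Filter.eventually_all_finset]
    intro a ha
    obtain ⟨e, he, hb⟩ := Metric.isOpen_iff.mp (hu a ha).1 (f.1 a) (hu a ha).2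
    filter_upwards [Ioo_mem_nhdsGT he] with ε hε
    exact (Metric.ball_subset_ball hε.2.le).trans hb
  obtain ⟨ε, hε1, hε2⟩ := (h1.and self_mem_nhdsWithin).exists
  refine ⟨I, ε, hε2, fun h hh => hsub ?_⟩
  intro a ha
  apply hε1 a ha
  rw [Metric.mem_ball, Subtype.dist_eq, dist_eq_norm]
  exact hh a ha

theorem openC {C : Set X} (I : Finset C) (γ : ℝ) (q : X) :
    IsOpen {h : NC C | ∀ x ∈ I, ‖(h.1 x : X) - q‖ < γ} := by
  have : {h : NC C | ∀ x ∈ I, ‖(h.1 x : X) - q‖ < γ} =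
      ⋂ x ∈ I, {h : NC C | ‖(h.1 x : X) - q‖ < γ} := by
    ext h; simp
  rw [this]
  apply isOpen_biInter_finset
  intro x _
  have h2 : Continuous (fun h : NC C => (h.1 x : X)) :=
    continuous_subtype_val.comp ((continuous_apply x).comp continuous_subtype_val)
  exact isOpen_lt (h2.sub continuous_const).norm continuous_const

/-- the outer map: locally constant near its fixed point, close to `g` -/
theorem outerC [CompleteSpace X] {C : Set X} (hC : IsClosed C) (hcv : Convex ℝ C) (p : C)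
    (g : NC C) (I : Finset C) (ε : ℝ) (hε : 0 < ε) :
    ∃ (G : NC C) (q p' : C) (a τ : ℝ), 0 < a ∧ 0 < τ ∧ τ < 1 ∧
      (q : X) = (1 - τ) • (p' : X) + τ • (p : X) ∧
      (∀ x : C, ‖(x : X) - q‖ ≤ a → G.1 x = q) ∧
      (∀ x ∈ I, ‖(G.1 x : X) - g.1 x‖ < ε) := by
  obtain ⟨R, hR⟩ : ∃ R : ℝ, ∀ x ∈ I, ‖(g.1 x : X) - p‖ ≤ R := by
    refine ⟨∑ x ∈ I, ‖(g.1 x : X) - p‖, fun x hx => ?_⟩
    exact Finset.single_le_sum (f := fun x => ‖(g.1 x : X) - p‖) (fun i _ => norm_nonneg _) hx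
  set A : ℝ := max R 1 with hA
  have hA0 : 0 < A := lt_of_lt_of_le one_pos (le_max_right _ _)
  obtain ⟨τ, hτ0, hτ1, hτ2⟩ : ∃ τ : ℝ, 0 < τ ∧ τ < 1 ∧ τ * A < ε / 2 := by
    refine ⟨min (1/2) (ε / (4 * A)), by positivity, ?_, ?_⟩
    · exact lt_of_le_of_lt (min_le_left _ _) (by norm_num)
    · calc min (1/2) (ε / (4 * A)) * A ≤ (ε / (4 * A)) * A :=
          mul_le_mul_of_nonneg_right (min_le_right _ _) hA0.le
        _ = ε / 4 := by field_simp
        _ < ε / 2 := by linarith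
  -- the strict contraction and its fixed point
  let κ : NNReal := ⟨1 - τ, by linarith⟩
  let gt : C → C := fun x => ⟨(1 - τ) • (g.1 x : X) + τ • (p : X),
    hcv (g.1 x).2 p.2 (by linarith) hτ0.le (by ring)⟩
  have hdiff : ∀ x y : C, ‖(gt x : X) - gt y‖ = (1 - τ) * ‖(g.1 x : X) - g.1 y‖ := by
    intro x y
    have e : (gt x : X) - gt y = (1 - τ) • ((g.1 x : X) - g.1 y) := by
      show ((1 - τ) • (g.1 x : X) + τ • (p : X)) - ((1 - τ) • (g.1 y : X) + τ • (p : X)) = _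
      rw [smul_sub]; abel
    rw [e, norm_smul, Real.norm_of_nonneg (by linarith)]
  haveI : CompleteSpace C := hC.completeSpace_coe
  haveI : Nonempty C := ⟨p⟩
  have hκ : ContractingWith κ gt := by
    constructor
    · have hq1 : (κ : ℝ) < ((1 : NNReal) : ℝ) := by
        show 1 - τ < 1
        linarith
      exact NNReal.coe_lt_coe.mp hq1
    · apply LipschitzWith.of_dist_le_mul
      intro x y
      rw [Subtype.dist_eq, Subtype.dist_eq, dist_eq_norm, dist_eq_norm, hdiff]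
      exact mul_le_mul_of_nonneg_left (g.2 x y) (by linarith)
  let q : C := ContractingWith.fixedPoint gt hκ
  have hq : gt q = q := ContractingWith.fixedPoint_isFixedPt hκ
  -- cut off
  set b : ℝ := ε / 4 with hb
  have hb0 : 0 < b := by positivity
  set a : ℝ := b * Real.exp (-(1/τ)) with haa
  have ha0 : 0 < a := by positivity
  have hab : a * Real.exp (1/τ) = b := by
    rw [haa, mul_assoc, ← Real.exp_add]; simp
  obtain ⟨θ, t0, t1, ta, tb, tl⟩ := cut τ a hτ0 ha0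
  rw [hab] at tb
  let w : ℝ → ℝ := fun r => 1 - θ r
  have wl : ∀ r' r, 0 ≤ r' → r' ≤ r → |w r - w r'| * r' ≤ τ * (r - r') := by
    intro r' r h0 hr
    have : |w r - w r'| = |θ r - θ r'| := by
      rw [show w r - w r' = -(θ r - θ r') by simp only [w]; ring, abs_neg]
    rw [this]; exact tl r' r h0 hr
  let ψ : C → C := fun x => ⟨(q : X) + w ‖(x : X) - q‖ • ((x : X) - q),
    hcv.add_smul_sub_mem q.2 x.2 ⟨sub_nonneg.mpr (t1 _), by simp only [w]; linarith [t0 ‖(x : X) - q‖]⟩⟩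
  let G : NC C := ⟨fun x => gt (ψ x), fun x y => by
    rw [hdiff]
    have h1 := g.2 (ψ x) (ψ y)
    have h2 := radial τ hτ0.le w (fun r => sub_nonneg.mpr (t1 r))
      (fun r => by simp only [w]; linarith [t0 r]) wl ((x : X) - q) ((y : X) - q)
    have h3 : (ψ x : X) - ψ y = w ‖(x : X) - q‖ • ((x : X) - q) - w ‖(y : X) - q‖ • ((y : X) - q) := by
      show ((q : X) + w ‖(x : X) - q‖ • ((x : X) - q)) - ((q : X) + w ‖(y : X) - q‖ • ((y : X) - q)) = _
      abel
    rw [h3] at h1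
    rw [sub_sub_sub_cancel_right] at h2
    calc _ ≤ (1 - τ) * ((1 + τ) * ‖(x : X) - y‖) :=
          mul_le_mul_of_nonneg_left (le_trans h1 h2) (by linarith)
      _ = (1 - τ^2) * ‖(x : X) - y‖ := by ring
      _ ≤ 1 * ‖(x : X) - y‖ := mul_le_mul_of_nonneg_right (by nlinarith) (norm_nonneg _)
      _ = ‖(x : X) - y‖ := one_mul _⟩
  refine ⟨G, q, g.1 q, a, τ, ha0, hτ0, hτ1, ?_, ?_, ?_⟩
  · exact (congrArg Subtype.val hq).symm
  · intro x hx
    show gt (ψ x) = q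
    have : ψ x = q := by
      apply Subtype.ext
      show (q : X) + w ‖(x : X) - q‖ • ((x : X) - q) = q
      have hw : w ‖(x : X) - q‖ = 0 := by simp only [w]; rw [ta _ hx]; ring
      rw [hw, zero_smul, add_zero]
    rw [this]
    exact hq
  · intro x hx
    have h1 : ‖(G.1 x : X) - gt x‖ ≤ b := by
      show ‖(gt (ψ x) : X) - gt x‖ ≤ b
      rw [hdiff]
      have h2 := g.2 (ψ x) x
      have h3 : (ψ x : X) - x = -(θ ‖(x : X) - q‖ • ((x : X) - q)) := by
        show (q : X) + w ‖(x : X) - q‖ • ((x : X) - q) - x = _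
        simp only [w]; rw [sub_smul, one_smul]; abel
      rw [h3, norm_neg, norm_smul, Real.norm_of_nonneg (t0 _)] at h2
      have h4 : θ ‖(x : X) - q‖ * ‖(x : X) - q‖ ≤ b := by
        rcases le_total b ‖(x : X) - q‖ with h | h
        · rw [tb _ h]; simp [hb0.le]
        · calc θ ‖(x : X) - q‖ * ‖(x : X) - q‖ ≤ 1 * b :=
                mul_le_mul (t1 _) h (norm_nonneg _) zero_le_one
            _ = b := one_mul b
      calc _ ≤ (1 - τ) * b := mul_le_mul_of_nonneg_left (le_trans h2 h4) (by linarith)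
        _ ≤ 1 * b := mul_le_mul_of_nonneg_right (by linarith) hb0.le
        _ = b := one_mul b
    have h5 : ‖(gt x : X) - g.1 x‖ < ε / 2 := by
      have e : (gt x : X) - g.1 x = -(τ • ((g.1 x : X) - p)) := by
        show ((1 - τ) • (g.1 x : X) + τ • (p : X)) - g.1 x = _
        rw [sub_smul, one_smul, smul_sub]; abel
      rw [e, norm_neg, norm_smul, Real.norm_of_nonneg hτ0.le]
      exact lt_of_le_of_lt (mul_le_mul_of_nonneg_left
        (le_trans (hR x hx) (le_max_left _ _)) hτ0.le) hτ2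
    calc ‖(G.1 x : X) - g.1 x‖ = ‖((G.1 x : X) - gt x) + ((gt x : X) - g.1 x)‖ := by
          congr 1; abel
      _ ≤ ‖(G.1 x : X) - gt x‖ + ‖(gt x : X) - g.1 x‖ := norm_add_le _ _
      _ < ε := by rw [hb] at h1; linarith

/-- the key estimate: the centres `q + s (y - p)` -/
theorem centre_est (C : Set X) (hcv : Convex ℝ C) (p : X) (hp : p ∈ C) (R0 ρ : ℝ) (hρ : ρ < R0)
    (h0 : 0 < R0) (Y : Finset X)
    (hcov : ∀ x ∈ C, ‖x - p‖ ≤ R0 → ∃ y ∈ Y, ‖x - y‖ ≤ ρ) (q : X) :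
    ∃ R > 0, ∀ s : ℝ, 0 < s → s ≤ 1 → ∀ x ∈ C, ‖x - q‖ ≤ R →
      ∃ y ∈ Y, ‖x - (q + s • (y - p))‖ ≤ R - s * (R0 - ρ) / 2 := by
  set d : ℝ := ‖p - q‖ with hd
  have hd0 : 0 ≤ d := norm_nonneg _
  set g0 : ℝ := R0 - ρ with hg0
  have hg : 0 < g0 := by linarith
  set R1 : ℝ := max R0 (4 * d * R0 / g0) + d + 1 with hR1
  have hR1a : R0 + d + 1 ≤ R1 := by
    have := le_max_left R0 (4 * d * R0 / g0)
    linarith
  have hR1b : 4 * d * R0 ≤ g0 * R1 := by
    have h1 : 4 * d * R0 / g0 ≤ R1 := by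
      have := le_max_right R0 (4 * d * R0 / g0)
      linarith
    rw [div_le_iff₀ hg] at h1
    linarith
  have hR1p : 0 < R1 := by linarith
  set l : ℝ := R0 / R1 with hl
  have hl0 : 0 < l := by positivity
  have hl1 : l ≤ 1 := by rw [hl, div_le_one hR1p]; linarith
  have hlR : l * R1 = R0 := by rw [hl]; field_simp
  have hld : l * (2 * d) ≤ g0 / 2 := by
    have : l * (2 * d) * R1 ≤ g0 / 2 * R1 := by
      calc l * (2 * d) * R1 = 2 * d * (l * R1) := by ring
        _ = 2 * d * R0 := by rw [hlR]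
        _ ≤ g0 / 2 * R1 := by linarith
    exact le_of_mul_le_mul_right this hR1p
  refine ⟨R1 - d, by linarith, ?_⟩
  intro s hs hs1 x hx hxq
  have hxp : ‖x - p‖ ≤ R1 := by
    calc ‖x - p‖ = ‖(x - q) - (p - q)‖ := by congr 1; abel
      _ ≤ ‖x - q‖ + ‖p - q‖ := norm_sub_le _ _
      _ ≤ R1 := by linarith
  obtain ⟨y, hy, hyx⟩ := hcov (p + l • (x - p)) (hcv.add_smul_sub_mem hp hx ⟨hl0.le, hl1⟩) (by
    rw [add_sub_cancel_left, norm_smul, Real.norm_of_nonneg hl0.le, ← hlR]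
    exact mul_le_mul_of_nonneg_left hxp hl0.le)
  refine ⟨y, hy, ?_⟩
  have hsl : s * l ≤ 1 := by nlinarith
  have e : x - (q + s • (y - p)) = (1 - s * l) • (x - q) + (s * l) • (p - q)
      + s • (p + l • (x - p) - y) := by module
  rw [e]
  calc _ ≤ ‖(1 - s * l) • (x - q)‖ + ‖(s * l) • (p - q)‖ + ‖s • (p + l • (x - p) - y)‖ :=
        norm_add₃_le
    _ = (1 - s * l) * ‖x - q‖ + (s * l) * d + s * ‖p + l • (x - p) - y‖ := by
        rw [norm_smul, norm_smul, norm_smul, Real.norm_of_nonneg (by linarith),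
          Real.norm_of_nonneg (by positivity), Real.norm_of_nonneg hs.le]
    _ ≤ (1 - s * l) * (R1 - d) + (s * l) * d + s * ρ := by
        have h1 := mul_le_mul_of_nonneg_left hxq (by linarith : 0 ≤ 1 - s * l)
        have h2 := mul_le_mul_of_nonneg_left hyx hs.le
        linarith
    _ = (R1 - d) - s * (l * R1 - l * (2 * d) - ρ) := by ring
    _ ≤ (R1 - d) - s * g0 / 2 := by
        rw [hlR]
        have : s * (g0 / 2) ≤ s * (R0 - l * (2 * d) - ρ) :=
          mul_le_mul_of_nonneg_left (by linarith) hs.le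
        linarith

theorem main [CompleteSpace X] (C : Set X) (hC : IsClosed C) (hcv : Convex ℝ C) (p : X)
    (hp : p ∈ C) (R0 ρ : ℝ) (hρ : ρ < R0) (h0 : 0 < R0) (Y : Finset X) (hY : ∀ y ∈ Y, y ∈ C)
    (hcov : ∀ x ∈ C, ‖x - p‖ ≤ R0 → ∃ y ∈ Y, ‖x - y‖ ≤ ρ) : Dense (interior (FC C)) := by
  classical
  rw [dense_iff_inter_open]
  rintro W hW ⟨g, hg⟩
  obtain ⟨J, η, hη, hJ⟩ := basicC W hW g hg
  obtain ⟨G, q, p', a, τ, ha, hτ0, hτ1, hq, hGa, hGg⟩ := outerC hC hcv ⟨p, hp⟩ g J η hη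
  obtain ⟨R, hR0, hR⟩ := centre_est C hcv p hp R0 ρ hρ h0 Y hcov q
  obtain ⟨M, hM⟩ : ∃ M : ℝ, ∀ y ∈ Y, ‖y - p‖ ≤ M := by
    refine ⟨∑ y ∈ Y, ‖y - p‖, fun x hx => ?_⟩
    exact Finset.single_le_sum (f := fun y => ‖y - p‖) (fun i _ => norm_nonneg _) hx
  obtain ⟨s, hs, hsτ, hsa⟩ : ∃ s : ℝ, 0 < s ∧ s ≤ τ ∧ s * max M 1 ≤ a := by
    have hM1 : 0 < max M 1 := lt_of_lt_of_le one_pos (le_max_right _ _)
    refine ⟨min τ (a / max M 1), by positivity, min_le_left _ _, ?_⟩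
    calc _ ≤ (a / max M 1) * max M 1 := mul_le_mul_of_nonneg_right (min_le_right _ _) hM1.le
      _ = a := by field_simp
  -- the centres
  have hcC : ∀ y ∈ Y, (q : X) + s • (y - p) ∈ C := by
    intro y hy
    have e : (q : X) + s • (y - p) = (1 - τ) • (p' : X) + (τ - s) • p + s • y := by
      rw [hq]; module
    rw [e]
    rcases eq_or_lt_of_le hsτ with h | h
    · rw [h, sub_self, zero_smul, add_zero]
      exact hcv p'.2 (hY y hy) (by linarith) hτ0.le (by ring)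
    · have h1 := hcv hp (hY y hy) (a := (τ - s) / τ) (b := s / τ) (by
        apply div_nonneg <;> linarith) (by positivity) (by field_simp; ring)
      have h2 := hcv p'.2 h1 (a := 1 - τ) (b := τ) (by linarith) hτ0.le (by ring)
      have e2 : (1 - τ) • (p' : X) + τ • (((τ - s) / τ) • p + (s / τ) • y)
          = (1 - τ) • (p' : X) + (τ - s) • p + s • y := by
        rw [smul_add, smul_smul, smul_smul, mul_div_cancel₀ _ hτ0.ne', mul_div_cancel₀ _ hτ0.ne']
        abel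
      rwa [e2] at h2
  let cen : X → C := fun y => if h : (q : X) + s • (y - p) ∈ C then ⟨_, h⟩ else q
  have hcen : ∀ y ∈ Y, (cen y : X) = (q : X) + s • (y - p) := by
    intro y hy
    simp only [cen, dif_pos (hcC y hy)]
  let I : Finset C := Y.image cen
  set γ : ℝ := s * (R0 - ρ) / 2 with hγ
  have hγ0 : 0 < γ := by
    have : 0 < R0 - ρ := by linarith
    positivity
  refine ⟨G, hJ G hGg, ?_⟩
  rw [mem_interior]
  refine ⟨{h : NC C | ∀ x ∈ I, ‖(h.1 x : X) - q‖ < γ}, ?_, openC I γ q, ?_⟩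
  · intro h hh
    refine ⟨C ∩ Metric.closedBall (q : X) R, ⟨q, q.2, Metric.mem_closedBall_self hR0.le⟩,
      hC.inter Metric.isClosed_closedBall, hcv.inter (convex_closedBall _ _),
      Metric.isBounded_closedBall.subset Set.inter_subset_right, Set.inter_subset_left, ?_⟩
    rintro x ⟨hx1, hx2⟩
    refine ⟨(h.1 x).2, ?_⟩
    rw [Metric.mem_closedBall, dist_eq_norm] at hx2 ⊢
    obtain ⟨y, hy, hyx⟩ := hR s hs (by linarith) x hx1 hx2
    have h1 := h.2 x (cen y)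
    rw [hcen y hy] at h1
    have h2 := hh (cen y) (Finset.mem_image_of_mem cen hy)
    calc ‖(h.1 x : X) - q‖ = ‖((h.1 x : X) - h.1 (cen y)) + ((h.1 (cen y) : X) - q)‖ := by
          congr 1; abel
      _ ≤ ‖(h.1 x : X) - h.1 (cen y)‖ + ‖(h.1 (cen y) : X) - q‖ := norm_add_le _ _
      _ ≤ (R - γ) + γ := add_le_add (h1.trans hyx) h2.le
      _ = R := by ring
  · intro x hx
    obtain ⟨y, hy, rfl⟩ := Finset.mem_image.mp hx
    have h1 : G.1 (cen y) = q := by
      apply hGa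
      rw [hcen y hy, add_sub_cancel_left, norm_smul, Real.norm_of_nonneg hs.le]
      exact le_trans (mul_le_mul_of_nonneg_left (le_trans (hM y hy) (le_max_left _ _)) hs.le) hsa
    rw [h1, sub_self, norm_zero]
    exact hγ0

end Pool.Agent.K7.H38.FC
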