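import Pool.Agent.K7.H38.FC.Mea

set_option linter.all false

namespace Pool.Agent.K7.H38.FC

open Filter Topology Metric

variable {X : Type*} [NormedAddCommGroup X] [NormedSpace ℝ X]

theorem fine_meager (C : Set X) (hcv : Convex ℝ C) (hne : C.Nonempty)
    (hfine : ∀ (A : Finset X) (ε : ℝ), 0 < ε → ∃ (m : ℕ) (P : Fin m → X →L[ℝ] X),
      (∀ i, (∀ x, P i (P i x) = P i x) ∧
        ∀ x y, ‖P i x‖ ≤ ‖P i y‖ → ‖x - P i x‖ ≤ ‖y - P i y‖ → ‖x‖ ≤ ‖y‖) ∧
      (∀ i, ∀ x ∈ C, ∀ y ∈ C, P i x + (y - P i y) ∈ C) ∧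
      (∀ i, ∀ a ∈ A, ‖a - P i a‖ ≤ ε) ∧ (∀ x, ∑ i, (x - P i x) = x))
    (hub : ¬ Bornology.IsBounded C) : IsMeagre (FC C) := by
  classical
  obtain ⟨o, ho⟩ := hne
  apply meager
  apply esc_of_far hcv ⟨o, ho⟩
  intro A ε R hε
  obtain ⟨m, P, hP, hC, hA, hsum⟩ := hfine (insert o (A.image (fun x : C => (x : X)))) (ε / 2)
    (by positivity)
  by_cases hfar : ∃ (i : Fin m) (z : C), R < ‖((z : X) - P i z) - (o - P i o)‖
  · obtain ⟨i, z, hz⟩ := hfar
    refine ⟨P i, (hP i).1, (hP i).2, fun x y => hC i x x.2 y y.2, ?_, z, hz⟩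
    intro a ha
    have h1 := hA i a (Finset.mem_insert_of_mem (Finset.mem_image_of_mem _ ha))
    have h2 := hA i o (Finset.mem_insert_self _ _)
    calc ‖((a : X) - P i a) - (o - P i o)‖ ≤ ‖(a : X) - P i a‖ + ‖o - P i o‖ := norm_sub_le _ _
      _ ≤ ε := by linarith
  · exfalso
    push Not at hfar
    apply hub
    rw [isBounded_iff_forall_norm_le]
    refine ⟨m * R + ‖o‖, fun z hz => ?_⟩
    have e : z - o = ∑ i, ((z - P i z) - (o - P i o)) := by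
      rw [Finset.sum_sub_distrib, hsum, hsum]
    have h1 : ‖z - o‖ ≤ m * R := by
      rw [e]
      refine (norm_sum_le _ _).trans ?_
      refine (Finset.sum_le_sum (fun i _ => hfar i ⟨z, hz⟩)).trans ?_
      simp
    calc ‖z‖ = ‖(z - o) + o‖ := by congr 1; abel
      _ ≤ ‖z - o‖ + ‖o‖ := norm_add_le _ _
      _ ≤ m * R + ‖o‖ := by linarith

theorem bounded_univ (C : Set X) (hcl : IsClosed C) (hcv : Convex ℝ C) (hne : C.Nonempty)
    (hb : Bornology.IsBounded C) : FC C = Set.univ := by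
  rw [Set.eq_univ_iff_forall]
  intro f
  exact ⟨C, hne, hcl, hcv, hb, subset_rfl, fun x _ => (f.1 x).2⟩

end Pool.Agent.K7.H38.FC
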