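import Mathlib

set_option linter.all false

namespace Pool.Agent.K7.H38.FC

open Filter Topology

section

variable {E : ℕ → Type*} [∀ i, NormedAddCommGroup (E i)] [∀ i, NormedSpace ℝ (E i)]
  {p : ENNReal} [Fact (1 ≤ p)]

/-- the partial sums -/
noncomputable def PS (E : ℕ → Type*) [∀ i, NormedAddCommGroup (E i)] [∀ i, NormedSpace ℝ (E i)]
    (p : ENNReal) [Fact (1 ≤ p)] (N : ℕ) : lp E p →L[ℝ] lp E p :=
  ∑ i ∈ Finset.range N, (lp.singleContinuousLinearMap ℝ E p i).comp (lp.evalCLM ℝ E p i)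

theorem PS_apply (N : ℕ) (f : lp E p) : PS E p N f = ∑ i ∈ Finset.range N, lp.single p i (f i) := by
  rw [PS, ContinuousLinearMap.sum_apply]
  rfl

theorem PS_coord (N : ℕ) (f : lp E p) (i : ℕ) : (PS E p N f) i = if i < N then f i else 0 := by
  rw [PS_apply, lp.coeFn_sum, Finset.sum_apply]
  simp only [lp.coeFn_single]
  rw [Finset.sum_pi_single]
  simp

theorem PS_proj (N : ℕ) (f : lp E p) : PS E p N (PS E p N f) = PS E p N f := by
  ext i
  rw [PS_coord, PS_coord]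
  split_ifs <;> rfl

theorem PS_lim (hp : p ≠ ⊤) (f : lp E p) : Tendsto (fun N => PS E p N f) atTop (𝓝 f) := by
  have h := (lp.hasSum_single hp f).tendsto_sum_nat
  refine h.congr (fun N => ?_)
  rw [PS_apply]

theorem PS_norm (hp : p ≠ ⊤) (N : ℕ) (f : lp E p) :
    ‖f‖ ^ p.toReal = ‖PS E p N f‖ ^ p.toReal + ‖f - PS E p N f‖ ^ p.toReal := by
  have hp₀ : 0 < p := zero_lt_one.trans_le Fact.out
  have hp' : 0 < p.toReal := ENNReal.toReal_pos hp₀.ne' hp
  rw [PS_apply, lp.norm_compl_sum_single hp', lp.norm_sum_single hp']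
  ring

theorem PS_mono (hp : p ≠ ⊤) (N : ℕ) (x y : lp E p) (h1 : ‖PS E p N x‖ ≤ ‖PS E p N y‖)
    (h2 : ‖x - PS E p N x‖ ≤ ‖y - PS E p N y‖) : ‖x‖ ≤ ‖y‖ := by
  have hp₀ : 0 < p := zero_lt_one.trans_le Fact.out
  have hp' : 0 < p.toReal := ENNReal.toReal_pos hp₀.ne' hp
  rw [← Real.rpow_le_rpow_iff (norm_nonneg _) (norm_nonneg _) hp', PS_norm hp N x, PS_norm hp N y]
  exact add_le_add (Real.rpow_le_rpow (norm_nonneg _) h1 hp'.le)
    (Real.rpow_le_rpow (norm_nonneg _) h2 hp'.le)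

theorem PS_fin [∀ i, FiniteDimensional ℝ (E i)] (N : ℕ) :
    FiniteDimensional ℝ (LinearMap.range (PS E p N).toLinearMap) := by
  have key : ∀ N : ℕ, ∃ V : Submodule ℝ (lp E p), FiniteDimensional ℝ V ∧ ∀ f, PS E p N f ∈ V := by
    intro N
    induction N with
    | zero => exact ⟨⊥, inferInstance, fun f => by rw [PS_apply]; simp⟩
    | succ N ih =>
      obtain ⟨V, hV, hf⟩ := ih
      refine ⟨V ⊔ LinearMap.range (lp.singleContinuousLinearMap ℝ E p N).toLinearMap, ?_, fun f => ?_⟩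
      · haveI := hV
        infer_instance
      · rw [PS_apply, Finset.sum_range_succ, ← PS_apply]
        exact Submodule.add_mem_sup (hf f) ⟨f N, rfl⟩
  obtain ⟨V, hV, hf⟩ := key N
  haveI := hV
  apply Submodule.finiteDimensional_of_le (S₂ := V)
  rintro _ ⟨f, rfl⟩
  exact hf f

end

end Pool.Agent.K7.H38.FC
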