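import Pool.Agent.K7.H38.FC.Cov

set_option linter.all false

namespace Pool.Agent.K7.H38.FC

open Filter Topology Metric Pool.Agent.V11112.NX1

variable {X : Type*} [NormedAddCommGroup X] [NormedSpace ℝ X]

def GC {C : Set X} (p : C) (R : ℝ) : Set (NC C) := {f | ∀ k : ℕ, ‖((f.1^[k] p : C) : X) - p‖ ≤ R}

theorem iter_neC {C : Set X} (f : NC C) (k : ℕ) (x y : C) :
    ‖((f.1^[k] x : C) : X) - (f.1^[k] y : C)‖ ≤ ‖(x : X) - y‖ := by
  induction k with
  | zero => simp
  | succ k ih =>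
    rw [Function.iterate_succ_apply', Function.iterate_succ_apply']
    exact le_trans (f.2 _ _) ih

theorem FC_sub {C : Set X} (p : C) : FC C ⊆ ⋃ n : ℕ, GC p n := by
  rintro f ⟨K, ⟨y, hy⟩, _, _, hb, hKC, hm⟩
  obtain ⟨M, hM⟩ := hb.exists_norm_le
  obtain ⟨n, hn⟩ := exists_nat_ge (‖(p : X) - y‖ + M + ‖(p : X)‖)
  rw [Set.mem_iUnion]
  refine ⟨n, fun k => ?_⟩
  have h1 : ((f.1^[k] ⟨y, hKC hy⟩ : C) : X) ∈ K := by
    induction k with
    | zero => exact hy
    | succ k ih => rw [Function.iterate_succ_apply']; exact hm _ ih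
  have h2 := iter_neC f k p ⟨y, hKC hy⟩
  have h3 := hM _ h1
  calc ‖((f.1^[k] p : C) : X) - p‖
      = ‖(((f.1^[k] p : C) : X) - (f.1^[k] ⟨y, hKC hy⟩ : C)) + (f.1^[k] ⟨y, hKC hy⟩ : C) - p‖ := by
        congr 1; abel
    _ ≤ ‖(((f.1^[k] p : C) : X) - (f.1^[k] ⟨y, hKC hy⟩ : C)) + (f.1^[k] ⟨y, hKC hy⟩ : C)‖
        + ‖(p : X)‖ := norm_sub_le _ _
    _ ≤ ‖((f.1^[k] p : C) : X) - (f.1^[k] ⟨y, hKC hy⟩ : C)‖ + ‖((f.1^[k] ⟨y, hKC hy⟩ : C) : X)‖
        + ‖(p : X)‖ := by gcongr; exact norm_add_le _ _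
    _ ≤ ‖(p : X) - y‖ + M + ‖(p : X)‖ := by gcongr
    _ ≤ n := hn

theorem eval_contC {C : Set X} : Continuous (fun p : NC C × C => p.1.1 p.2) := by
  rw [continuous_iff_continuousAt]
  rintro ⟨f, y⟩
  show Tendsto _ _ (𝓝 (f.1 y))
  rw [tendsto_iff_dist_tendsto_zero]
  have h1 : Tendsto (fun p : NC C × C => dist p.2 y + dist (p.1.1 y) (f.1 y)) (𝓝 (f, y)) (𝓝 0) := by
    have hc : Continuous (fun p : NC C × C => dist p.2 y + dist (p.1.1 y) (f.1 y)) := by
      have h2 : Continuous (fun p : NC C × C => p.1.1 y) :=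
        (continuous_apply y).comp (continuous_subtype_val.comp continuous_fst)
      fun_prop
    have := hc.tendsto (f, y)
    simpa using this
  refine squeeze_zero (fun _ => dist_nonneg) (fun p => ?_) h1
  have h3 : dist (p.1.1 p.2) (p.1.1 y) ≤ dist p.2 y := by
    rw [Subtype.dist_eq, Subtype.dist_eq, dist_eq_norm, dist_eq_norm]
    exact p.1.2 p.2 y
  calc dist (p.1.1 p.2) (f.1 y) ≤ dist (p.1.1 p.2) (p.1.1 y) + dist (p.1.1 y) (f.1 y) :=
        dist_triangle _ _ _
    _ ≤ dist p.2 y + dist (p.1.1 y) (f.1 y) := by linarith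

theorem iter_contC {C : Set X} (p : C) (k : ℕ) : Continuous (fun f : NC C => f.1^[k] p) := by
  induction k with
  | zero => simpa using continuous_const
  | succ k ih =>
    simp only [Function.iterate_succ_apply']
    exact eval_contC.comp (continuous_id.prodMk ih)

theorem GC_closed {C : Set X} (p : C) (R : ℝ) : IsClosed (GC p R) := by
  have : GC p R = ⋂ k : ℕ, {f : NC C | ‖((f.1^[k] p : C) : X) - p‖ ≤ R} := by
    ext f; simp [GC]
  rw [this]
  refine isClosed_iInter (fun k => isClosed_le ?_ continuous_const)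
  exact ((continuous_subtype_val.comp (iter_contC p k)).sub continuous_const).norm

/-- decoupled escapes: see `Pool.Agent.Results.MP_55f1f5_an.DecoupledEscapes` -/
def Esc (C : Set X) : Prop :=
  ∃ o : C, ∀ (A : Finset C) (ε R : ℝ), 0 < ε → ∃ (P : X →L[ℝ] X) (r : C → C) (k : ℕ),
    (∀ x, P (P x) = P x) ∧
    (∀ x y, ‖P x‖ ≤ ‖P y‖ → ‖x - P x‖ ≤ ‖y - P y‖ → ‖x‖ ≤ ‖y‖) ∧
    (∀ x y : C, P x + ((y : X) - P y) ∈ C) ∧
    (∀ x y : C, ‖((r x : X) - P (r x)) - ((r y : X) - P (r y))‖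
      ≤ ‖((x : X) - P x) - ((y : X) - P y)‖) ∧
    (∀ a ∈ A, ‖((a : X) - P a) - ((o : X) - P o)‖ ≤ ε ∧
      ‖((r a : X) - P (r a)) - ((o : X) - P o)‖ ≤ ε) ∧
    R < ‖((r^[k] o : X) - P (r^[k] o)) - ((o : X) - P o)‖

theorem meager (C : Set X) (hesc : Esc C) : IsMeagre (FC C) := by
  classical
  obtain ⟨o, ho⟩ := hesc
  have h1 : IsMeagre (⋃ n : ℕ, GC o (n:ℝ)) := by
    apply isMeagre_iUnion
    intro n
    apply IsNowhereDense.isMeagre
    rw [(GC_closed o (n:ℝ)).isNowhereDense_iff, Set.eq_empty_iff_forall_notMem]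
    intro G hG
    obtain ⟨I, ε, hε, hI⟩ := basicC _ isOpen_interior G hG
    obtain ⟨P, r, k, hPP, hmono, hC, hr, hA, hk⟩ := ho (I ∪ I.image G.1) (ε / 4) n (by positivity)
    have hP1 : ∀ x, ‖P x‖ ≤ ‖x‖ := by
      intro x
      apply hmono
      · rw [hPP]
      · rw [hPP, sub_self, norm_zero]; exact norm_nonneg _
    have hQ1 : ∀ x, ‖x - P x‖ ≤ ‖x‖ := by
      intro x
      apply hmono
      · rw [map_sub, hPP, sub_self, norm_zero]; exact norm_nonneg _
      · rw [map_sub, hPP, sub_self, sub_zero]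
    let T : C → C := fun x => ⟨P x + ((o : X) - P o), hC x o⟩
    let gf : C → C := fun x => ⟨P (G.1 (T x)) + ((r x : X) - P (r x)), hC (G.1 (T x)) (r x)⟩
    have hT : ∀ x y : C, (T x : X) - T y = P ((x : X) - y) := by
      intro x y
      show (P x + ((o : X) - P o)) - (P y + ((o : X) - P o)) = _
      rw [map_sub]; abel
    have hPg : ∀ x : C, P (gf x) = P (G.1 (T x)) := by
      intro x
      show P (P (G.1 (T x)) + ((r x : X) - P (r x))) = _
      rw [map_add, map_sub, hPP, hPP, sub_self, add_zero]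
    have hQg : ∀ x : C, (gf x : X) - P (gf x) = (r x : X) - P (r x) := by
      intro x
      rw [hPg]
      show (P (G.1 (T x)) + ((r x : X) - P (r x))) - P (G.1 (T x)) = _
      abel
    let g : NC C := ⟨gf, fun x y => by
      apply hmono
      · rw [map_sub, hPg, hPg, ← map_sub]
        refine (hP1 _).trans ((G.2 _ _).trans ?_)
        rw [hT]
      · have e1 : ((gf x : X) - gf y) - P ((gf x : X) - gf y)
            = ((r x : X) - P (r x)) - ((r y : X) - P (r y)) := by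
          rw [← hQg, ← hQg, map_sub]; abel
        have e2 : ((x : X) - y) - P ((x : X) - y) = ((x : X) - P x) - ((y : X) - P y) := by
          rw [map_sub]; abel
        rw [e1, e2]
        exact hr x y⟩
    have hgW : g ∈ interior (GC o (n:ℝ)) := by
      apply hI
      intro x hx
      obtain ⟨k1, k2⟩ := hA x (Finset.mem_union_left _ hx)
      obtain ⟨k3, _⟩ := hA (G.1 x) (Finset.mem_union_right _ (Finset.mem_image_of_mem _ hx))
      have e1 : (g.1 x : X) - G.1 x = P ((G.1 (T x) : X) - G.1 x)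
          + ((((r x : X) - P (r x)) - ((o : X) - P o))
            - (((G.1 x : X) - P (G.1 x)) - ((o : X) - P o))) := by
        show (P (G.1 (T x)) + ((r x : X) - P (r x))) - G.1 x = _
        rw [map_sub]; abel
      have e2 : ‖P ((G.1 (T x) : X) - G.1 x)‖ ≤ ε / 4 := by
        refine (hP1 _).trans ((G.2 _ _).trans ?_)
        have : (T x : X) - x = -(((x : X) - P x) - ((o : X) - P o)) := by
          show (P x + ((o : X) - P o)) - x = _
          abel
        rw [this, norm_neg]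
        exact k1
      rw [e1]
      calc _ ≤ ‖P ((G.1 (T x) : X) - G.1 x)‖
            + (‖((r x : X) - P (r x)) - ((o : X) - P o)‖
              + ‖((G.1 x : X) - P (G.1 x)) - ((o : X) - P o)‖) :=
            (norm_add_le _ _).trans (by gcongr; exact norm_sub_le _ _)
        _ ≤ ε / 4 + (ε / 4 + ε / 4) := by gcongr
        _ < ε := by linarith
    have hgR := interior_subset hgW
    have hit : ∀ k : ℕ, ((g.1^[k] o : X) - P (g.1^[k] o)) = ((r^[k] o : X) - P (r^[k] o)) := by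
      intro k
      induction k with
      | zero => rfl
      | succ k ih =>
        rw [Function.iterate_succ_apply', Function.iterate_succ_apply']
        have e5 : ((g.1 (g.1^[k] o) : C) : X) - P (g.1 (g.1^[k] o))
            = (r (g.1^[k] o) : X) - P (r (g.1^[k] o)) := hQg _
        rw [e5]
        have e6 := hr (g.1^[k] o) (r^[k] o)
        rw [ih, sub_self, norm_zero] at e6
        exact sub_eq_zero.mp (norm_le_zero_iff.mp e6)
    have h2 : ‖((g.1^[k] o : C) : X) - o‖ ≤ n := hgR k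
    have h3 := hQ1 (((g.1^[k] o : C) : X) - o)
    rw [map_sub] at h3
    have h4 : ((g.1^[k] o : C) : X) - o - (P (g.1^[k] o) - P o)
        = ((r^[k] o : X) - P (r^[k] o)) - ((o : X) - P o) := by
      rw [← hit k]; abel
    rw [h4] at h3
    linarith
  exact h1.mono (FC_sub o)

theorem esc_of_far {C : Set X} (hcv : Convex ℝ C) (o : C)
    (h : ∀ (A : Finset C) (ε R : ℝ), 0 < ε → ∃ P : X →L[ℝ] X,
      (∀ x, P (P x) = P x) ∧
      (∀ x y, ‖P x‖ ≤ ‖P y‖ → ‖x - P x‖ ≤ ‖y - P y‖ → ‖x‖ ≤ ‖y‖) ∧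
      (∀ x y : C, P x + ((y : X) - P y) ∈ C) ∧
      (∀ a ∈ A, ‖((a : X) - P a) - ((o : X) - P o)‖ ≤ ε) ∧
      ∃ z : C, R < ‖((z : X) - P z) - ((o : X) - P o)‖) : Esc C := by
  refine ⟨o, fun A ε R hε => ?_⟩
  obtain ⟨P, hPP, hmono, hC, hA, z, hz⟩ := h A (ε / 2) (max R 0) (by positivity)
  set L : ℝ := ‖((z : X) - P z) - ((o : X) - P o)‖ with hL
  have hL0 : 0 < L := lt_of_le_of_lt (le_max_right _ _) hz
  have hLR : R < L := lt_of_le_of_lt (le_max_left _ _) hz
  let β : C → ℝ := fun x => min L (ε / 2 + ‖((x : X) - P x) - ((o : X) - P o)‖)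
  have hβ0 : ∀ x, 0 ≤ β x := fun x => le_min hL0.le (by positivity)
  have hβL : ∀ x, β x ≤ L := fun x => min_le_left _ _
  let r : C → C := fun x => ⟨(o : X) + (β x / L) • ((z : X) - o),
    hcv.add_smul_sub_mem o.2 z.2 ⟨div_nonneg (hβ0 x) hL0.le, (div_le_one hL0).mpr (hβL x)⟩⟩
  have hQr : ∀ x, ((r x : X) - P (r x)) - ((o : X) - P o)
      = (β x / L) • (((z : X) - P z) - ((o : X) - P o)) := by
    intro x
    show (((o : X) + (β x / L) • ((z : X) - o)) - P ((o : X) + (β x / L) • ((z : X) - o)))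
      - ((o : X) - P o) = _
    rw [map_add, map_smul, map_sub]; module
  have hnr : ∀ x, ‖((r x : X) - P (r x)) - ((o : X) - P o)‖ = β x := by
    intro x
    rw [hQr, norm_smul, Real.norm_of_nonneg (div_nonneg (hβ0 x) hL0.le), ← hL]
    field_simp
  have hk : ∀ k : ℕ, min L (k * (ε / 2)) ≤ ‖((r^[k] o : X) - P (r^[k] o)) - ((o : X) - P o)‖ := by
    intro k
    induction k with
    | zero => simp [hL0.le]
    | succ k ih =>
      rw [Function.iterate_succ_apply', hnr]
      push_cast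
      rcases min_le_iff.mp ih with h1 | h1
      · refine le_min (min_le_left _ _) ((min_le_left _ _).trans ?_)
        linarith
      · refine le_min (min_le_left _ _) ((min_le_right _ _).trans ?_)
        linarith
  obtain ⟨k, hk1⟩ := exists_nat_gt (L / (ε / 2))
  refine ⟨P, r, k, hPP, hmono, hC, ?_, ?_, ?_⟩
  · intro x y
    have e : ((r x : X) - P (r x)) - ((r y : X) - P (r y))
        = ((β x - β y) / L) • (((z : X) - P z) - ((o : X) - P o)) := by
      have : ((r x : X) - P (r x)) - ((r y : X) - P (r y))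
        = (((r x : X) - P (r x)) - ((o : X) - P o)) - (((r y : X) - P (r y)) - ((o : X) - P o)) := by
        abel
      rw [this, hQr, hQr, ← sub_smul, sub_div]
    rw [e, norm_smul, ← hL, Real.norm_eq_abs, abs_div, abs_of_pos hL0, div_mul_cancel₀ _ hL0.ne']
    have h1 := abs_min_sub_min_le_max L (ε / 2 + ‖((x : X) - P x) - ((o : X) - P o)‖) L
      (ε / 2 + ‖((y : X) - P y) - ((o : X) - P o)‖)
    rw [sub_self, abs_zero, add_sub_add_left_eq_sub, max_eq_right (abs_nonneg _)] at h1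
    refine h1.trans ((abs_norm_sub_norm_le _ _).trans (le_of_eq ?_))
    congr 1; abel
  · intro a ha
    refine ⟨(hA a ha).trans (by linarith), ?_⟩
    rw [hnr]
    exact (min_le_right _ _).trans (by linarith [hA a ha])
  · refine lt_of_lt_of_le hLR (le_trans (le_of_eq ?_) (hk k))
    rw [div_lt_iff₀ (by positivity)] at hk1
    exact (min_eq_left hk1.le).symm

theorem far_meager (C : Set X) (hcv : Convex ℝ C)
    (hne : C.Nonempty) (P : ℕ → X →L[ℝ] X) (hPP : ∀ N x, P N (P N x) = P N x)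
    (hlim : ∀ x, Tendsto (fun N => P N x) atTop (𝓝 x))
    (hmono : ∀ N x y, ‖P N x‖ ≤ ‖P N y‖ → ‖x - P N x‖ ≤ ‖y - P N y‖ → ‖x‖ ≤ ‖y‖)
    (hC : ∀ N, ∀ x ∈ C, ∀ y ∈ C, P N x + (y - P N y) ∈ C)
    (hub : ∀ N, ¬ Bornology.IsBounded ((fun x => x - P N x) '' C)) : IsMeagre (FC C) := by
  classical
  obtain ⟨o, ho⟩ := hne
  have hfar : ∀ (N : ℕ) (R : ℝ), ∃ z ∈ C, R < ‖(z - P N z) - (o - P N o)‖ := by
    intro N R
    by_contra hcon
    push Not at hcon
    apply hub N
    rw [isBounded_iff_forall_norm_le]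
    refine ⟨R + ‖o - P N o‖, ?_⟩
    rintro _ ⟨x, hx, rfl⟩
    show ‖x - P N x‖ ≤ _
    calc ‖x - P N x‖ = ‖((x - P N x) - (o - P N o)) + (o - P N o)‖ := by congr 1; abel
      _ ≤ ‖(x - P N x) - (o - P N o)‖ + ‖o - P N o‖ := norm_add_le _ _
      _ ≤ _ := by linarith [hcon x hx]
  apply meager
  apply esc_of_far hcv ⟨o, ho⟩
  intro A ε R hε
  have h1 : ∀ᶠ N in atTop, ∀ a ∈ A, ‖((a : X) - P N a) - (o - P N o)‖ ≤ ε := by
    rw [Filter.eventually_all_finset]
    intro a _
    have h2 : Tendsto (fun N => ‖((a : X) - P N a) - (o - P N o)‖) atTop (𝓝 0) := by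
      have h3 := ((tendsto_const_nhds (x := (a : X))).sub (hlim a)).sub
        ((tendsto_const_nhds (x := o)).sub (hlim o))
      have h4 := h3.norm
      simpa using h4
    exact h2.eventually_le_const hε
  obtain ⟨N, hN⟩ := h1.exists
  obtain ⟨z, hz, hzR⟩ := hfar N R
  exact ⟨P N, hPP N, hmono N, fun x y => hC N x x.2 y y.2, hN, ⟨z, hz⟩, hzR⟩

theorem near_residual [CompleteSpace X] (C : Set X) (hcl : IsClosed C) (hcv : Convex ℝ C)
    (hne : C.Nonempty) (P : X →L[ℝ] X)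
    (hfin : FiniteDimensional ℝ (LinearMap.range P.toLinearMap))
    (hbd : Bornology.IsBounded ((fun x => x - P x) '' C)) : Dense (interior (FC C)) := by
  classical
  obtain ⟨o, ho⟩ := hne
  obtain ⟨M, hM⟩ := hbd.exists_norm_le
  have hR : ∀ z ∈ C, ‖(z - P z) - (o - P o)‖ ≤ M + M := by
    intro z hz
    refine (norm_sub_le _ _).trans (add_le_add (hM _ ⟨z, hz, rfl⟩) (hM _ ⟨o, ho, rfl⟩))
  obtain ⟨R, hR⟩ : ∃ R : ℝ, ∀ z ∈ C, ‖(z - P z) - (o - P o)‖ ≤ R := ⟨M + M, hR⟩
  have hR0 : 0 ≤ R := by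
    have := hR o ho
    rw [sub_self, norm_zero] at this
    exact this
  haveI := hfin
  haveI : ProperSpace (LinearMap.range P.toLinearMap) :=
    FiniteDimensional.proper ℝ _
  let S : Set X := C ∩ Metric.closedBall o (2 * R + 2)
  let Lm : X → LinearMap.range P.toLinearMap := fun x => ⟨P x, ⟨x, rfl⟩⟩
  have hSb : Bornology.IsBounded (Lm '' S) := by
    rw [isBounded_iff_forall_norm_le]
    refine ⟨‖P‖ * (2 * R + 2 + ‖o‖), ?_⟩
    rintro _ ⟨x, ⟨_, hx⟩, rfl⟩
    show ‖P x‖ ≤ _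
    refine (P.le_opNorm x).trans ?_
    rw [Metric.mem_closedBall, dist_eq_norm] at hx
    have : ‖x‖ ≤ 2 * R + 2 + ‖o‖ := by
      calc ‖x‖ = ‖(x - o) + o‖ := by congr 1; abel
        _ ≤ ‖x - o‖ + ‖o‖ := norm_add_le _ _
        _ ≤ _ := by linarith
    exact mul_le_mul_of_nonneg_left this (norm_nonneg _)
  have htb : TotallyBounded (Lm '' S) :=
    (hSb.isCompact_closure.totallyBounded).subset subset_closure
  obtain ⟨t, hts, htf, htc⟩ := Metric.finite_approx_of_totallyBounded htb (1 / 2) (by norm_num)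
  let gch : LinearMap.range P.toLinearMap → X := fun c =>
    if h : c ∈ Lm '' S then h.choose else o
  have hg : ∀ c ∈ t, gch c ∈ S ∧ Lm (gch c) = c := by
    intro c hc
    have h := hts hc
    simp only [gch, dif_pos h]
    exact h.choose_spec
  refine main C hcl hcv o ho (2 * R + 2) (2 * R + 1) (by linarith) (by linarith)
    (htf.toFinset.image gch) ?_ ?_
  · intro y hy
    obtain ⟨c, hc, rfl⟩ := Finset.mem_image.mp hy
    exact (hg c (htf.mem_toFinset.mp hc)).1.1
  · intro x hx hxo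
    have h1 : Lm x ∈ ⋃ y ∈ t, Metric.ball y (1 / 2) :=
      htc ⟨x, ⟨hx, by rwa [Metric.mem_closedBall, dist_eq_norm]⟩, rfl⟩
    rw [Set.mem_iUnion₂] at h1
    obtain ⟨c, hc, hxc⟩ := h1
    refine ⟨gch c, Finset.mem_image_of_mem _ (htf.mem_toFinset.mpr hc), ?_⟩
    obtain ⟨⟨hg1, _⟩, hg2⟩ := hg c hc
    rw [← hg2, Metric.mem_ball, Subtype.dist_eq, dist_eq_norm] at hxc
    have h3 : ‖P x - P (gch c)‖ < 1 / 2 := hxc
    have e : x - gch c = (P x - P (gch c)) + (((x - P x) - (o - P o))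
        - ((gch c - P (gch c)) - (o - P o))) := by abel
    rw [e]
    calc _ ≤ ‖P x - P (gch c)‖ + (‖(x - P x) - (o - P o)‖
          + ‖(gch c - P (gch c)) - (o - P o)‖) :=
          (norm_add_le _ _).trans (by gcongr; exact norm_sub_le _ _)
      _ ≤ 1 / 2 + (R + R) := by
          have := hR x hx
          have := hR _ hg1
          linarith
      _ ≤ 2 * R + 1 := by linarith

end Pool.Agent.K7.H38.FC
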